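import Pool.Graph.R_seed8.Results.MP_2ad15a_nt.GrowingDegreeSubgroups

/-!
MP_2ad15a_nt: integer tuples `⌊t_n α⌋` for almost every real `α`. Tools: the measure of the `α` for which the tuple is in a
given set, and Borel-Cantelli.
-/

set_option autoImplicit false

namespace Pool.Agent.H27.DT

open MeasureTheory Filter
open Pool.Agent.Results.MP_2ad15a_nt.GrowingDegreeSubgroups (integers)

lemma integers_one (T : ℕ) : integers 1 T ⊆ (fun n : ℤ => (n : ℂ)) '' (Set.Icc (-(T : ℤ)) T) := by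
  rintro α ⟨h1, h2, h3⟩
  have hq : IsIntegral ℚ α := h1.tower_top
  have hr : α ∈ (algebraMap ℚ ℂ).range := by
    rw [← minpoly.natDegree_eq_one_iff]
    have := minpoly.natDegree_pos hq
    omega
  obtain ⟨x, hx⟩ := hr
  have hx1 : IsIntegral ℤ x := by
    rw [← isIntegral_algebraMap_iff (algebraMap ℚ ℂ).injective, hx]
    exact h1
  obtain ⟨n, hn⟩ := IsIntegrallyClosed.isIntegral_iff.1 hx1
  have hα : α = (n : ℂ) := by
    rw [← hx, ← hn]
    simp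
  have h4 := h3 α (minpoly.aeval ℚ α)
  refine ⟨n, ?_, hα.symm⟩
  rw [hα, Complex.norm_intCast] at h4
  have h5 : |n| ≤ (T : ℤ) := by exact_mod_cast h4
  exact abs_le.1 h5

lemma integers_card (T : ℕ) (hT : 1 ≤ T) : ((integers 1 T).ncard : ℝ) ≤ 3 * T := by
  have h1 := Set.ncard_le_ncard (integers_one T) ((Set.finite_Icc (-(T : ℤ)) T).image _)
  have h2 := h1.trans (Set.ncard_image_le (Set.finite_Icc (-(T : ℤ)) T))
  rw [← Finset.coe_Icc, Set.ncard_coe_finset, Int.card_Icc] at h2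
  have h3 : (integers 1 T).ncard ≤ 3 * T := by omega
  exact_mod_cast h3

lemma int_mem (T : ℕ) (v : ℤ) (hv : |v| ≤ T) : (v : ℂ) ∈ integers 1 T := by
  have h0 : (v : ℂ) = algebraMap ℚ ℂ (v : ℚ) := by simp
  have h1 : minpoly ℚ (v : ℂ) = Polynomial.X - Polynomial.C (v : ℚ) := by
    rw [h0]
    exact minpoly.eq_X_sub_C ℂ (v : ℚ)
  refine ⟨?_, ?_, ?_⟩
  · have : (v : ℂ) = algebraMap ℤ ℂ (v : ℤ) := by simp
    rw [this]
    exact isIntegral_algebraMap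
  · rw [h1, Polynomial.natDegree_X_sub_C]
  · intro z hz
    rw [h1] at hz
    simp only [map_sub, Polynomial.aeval_X, Polynomial.aeval_C] at hz
    have hz1 : z = (v : ℂ) := by
      rw [sub_eq_zero] at hz
      rw [hz, ← h0]
    rw [hz1, Complex.norm_intCast]
    exact_mod_cast hv

/-- the measure of the `α` in the cube `[-A, A]^k` with `⌊t α⌋` in the set `Z` -/
lemma vol_le {k : ℕ} (Z : Set (Fin k → ℤ)) (A : ℕ) (t : ℝ) (ht : 1 ≤ t) (T : ℕ) (hT : (A : ℝ) * t + 1 ≤ T) :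
    volume {α : Fin k → ℝ | (∀ i, |α i| ≤ A) ∧ (fun i => ⌊t * α i⌋) ∈ Z} ≤
      ENNReal.ofReal (({v : Fin k → ℤ | (∀ i, |v i| ≤ (T : ℤ)) ∧ v ∈ Z}.ncard : ℝ) * (1 / t) ^ k) := by
  classical
  have ht0 : 0 < t := by linarith
  have hfin : {v : Fin k → ℤ | (∀ i, |v i| ≤ (T : ℤ)) ∧ v ∈ Z}.Finite := by
    apply (Set.Finite.pi' fun _ : Fin k => Set.finite_Icc (-(T : ℤ)) T).subset
    rintro v ⟨h1, _⟩ i
    exact abs_le.1 (h1 i)
  have hsub : {α : Fin k → ℝ | (∀ i, |α i| ≤ A) ∧ (fun i => ⌊t * α i⌋) ∈ Z} ⊆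
      ⋃ v ∈ hfin.toFinset, Set.pi Set.univ (fun i => Set.Ico ((v i : ℝ) / t) (((v i : ℝ) + 1) / t)) := by
    rintro α ⟨h1, h2⟩
    rw [Set.mem_iUnion₂]
    refine ⟨fun i => ⌊t * α i⌋, ?_, ?_⟩
    · rw [Set.Finite.mem_toFinset]
      refine ⟨fun i => ?_, h2⟩
      have h3 : |t * α i| ≤ A * t := by
        rw [abs_mul, abs_of_pos ht0, mul_comm]
        exact mul_le_mul_of_nonneg_right (h1 i) ht0.le
      have h4 := abs_le.1 h3
      have h5 := Int.floor_le (t * α i)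
      have h6 := Int.lt_floor_add_one (t * α i)
      have h7 : |((⌊t * α i⌋ : ℤ) : ℝ)| ≤ T := by
        rw [abs_le]
        constructor <;> linarith [h4.1, h4.2]
      exact_mod_cast h7
    · intro i _
      simp only [Set.mem_Ico]
      constructor
      · rw [div_le_iff₀ ht0, mul_comm]
        exact Int.floor_le _
      · rw [lt_div_iff₀ ht0, mul_comm]
        exact Int.lt_floor_add_one _
  refine (measure_mono hsub).trans ((measure_biUnion_finset_le _ _).trans ?_)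
  have hbox : ∀ v : Fin k → ℤ, volume (Set.pi Set.univ (fun i => Set.Ico ((v i : ℝ) / t) (((v i : ℝ) + 1) / t))) =
      ENNReal.ofReal ((1 / t) ^ k) := by
    intro v
    rw [Real.volume_pi_Ico]
    have : ∀ i, ENNReal.ofReal (((v i : ℝ) + 1) / t - (v i : ℝ) / t) = ENNReal.ofReal (1 / t) := by
      intro i
      congr 1
      field_simp
      ring
    simp only [this, Finset.prod_const, Finset.card_univ, Fintype.card_fin]
    rw [ENNReal.ofReal_pow (by positivity)]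
  simp only [hbox, Finset.sum_const, nsmul_eq_mul]
  rw [← ENNReal.ofReal_natCast, ← ENNReal.ofReal_mul (Nat.cast_nonneg _)]
  apply ENNReal.ofReal_le_ofReal
  rw [Set.ncard_eq_toFinset_card _ hfin]

/-- Borel-Cantelli for the tuples `⌊t_n α⌋` -/
lemma bc {k : ℕ} (Z : ℕ → Set (Fin k → ℤ)) (t : ℕ → ℝ) (β : ℝ) (hβ : 1 < β) (ht : ∀ n, β ^ n ≤ t n) (C₀ c₁ : ℝ)
    (hC₀ : 0 ≤ C₀) (hc₁ : 0 < c₁)
    (hZ : ∀ n : ℕ, 1 ≤ n → ∀ T : ℕ, 1 ≤ T → ({v : Fin k → ℤ | (∀ i, |v i| ≤ (T : ℤ)) ∧ v ∈ Z n}.ncard : ℝ) ≤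
      C₀ * (T : ℝ) ^ k * (T : ℝ) ^ (-(c₁ / √(n : ℝ)))) :
    ∀ᵐ α : Fin k → ℝ, ∀ᶠ n in atTop, (fun i => ⌊t n * α i⌋) ∉ Z n := by
  have hβ0 : 0 < β := by linarith
  have ht1 : ∀ n, 1 ≤ t n := fun n => (one_le_pow₀ hβ.le).trans (ht n)
  have hlog : 0 < Real.log β := Real.log_pos hβ
  have main : ∀ A : ℕ, ∀ᵐ α : Fin k → ℝ, (∀ i, |α i| ≤ (A : ℝ)) → ∀ᶠ n in atTop, (fun i => ⌊t n * α i⌋) ∉ Z n := by
    intro A
    obtain ⟨E, hE⟩ : ∃ E : ℕ → Set (Fin k → ℝ), E = fun n => {α : Fin k → ℝ | (∀ i, |α i| ≤ (A : ℝ)) ∧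
      (fun i => ⌊t n * α i⌋) ∈ Z n} := ⟨_, rfl⟩
    obtain ⟨c₂, hc₂⟩ : ∃ c₂, c₂ = c₁ * Real.log β := ⟨_, rfl⟩
    have hc₂0 : 0 < c₂ := by rw [hc₂]; positivity
    have hb : ∀ n : ℕ, volume (E (n + 1)) ≤
        ENNReal.ofReal (C₀ * ((A : ℝ) + 3) ^ k * (24 / c₂ ^ 4) * (1 / ((n : ℝ) + 1) ^ 2)) := by
      intro n
      obtain ⟨T, hT⟩ : ∃ T : ℕ, T = ⌈(A : ℝ) * t (n + 1) + 1⌉₊ := ⟨_, rfl⟩
      have hA0 : (0 : ℝ) ≤ (A : ℝ) := Nat.cast_nonneg _
      have htn := ht1 (n + 1)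
      have hT1 : (A : ℝ) * t (n + 1) + 1 ≤ T := by rw [hT]; exact Nat.le_ceil _
      have hT2 : (T : ℝ) ≤ (A : ℝ) * t (n + 1) + 2 := by
        rw [hT]
        have := (Nat.ceil_lt_add_one (by positivity : 0 ≤ (A : ℝ) * t (n + 1) + 1)).le
        linarith
      -- use the larger number `T' = T + ⌈t⌉` so that it is at least `t`
      obtain ⟨T', hT'⟩ : ∃ T' : ℕ, T' = T + ⌊t (n + 1)⌋₊ := ⟨_, rfl⟩
      have hfl := Nat.floor_le (by linarith : 0 ≤ t (n + 1))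
      have hfl2 := Nat.lt_floor_add_one (t (n + 1))
      have hT'1 : (A : ℝ) * t (n + 1) + 1 ≤ T' := by
        rw [hT']; push_cast; linarith [(Nat.cast_nonneg ⌊t (n + 1)⌋₊ : (0 : ℝ) ≤ _)]
      have hT'2 : t (n + 1) ≤ T' := by
        rw [hT']; push_cast; nlinarith
      have hT'3 : (T' : ℝ) ≤ ((A : ℝ) + 3) * t (n + 1) := by
        rw [hT']; push_cast; nlinarith
      have hT'4 : 1 ≤ T' := by
        have : (1 : ℝ) ≤ T' := htn.trans hT'2
        exact_mod_cast this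
      have hT'0 : (0 : ℝ) < T' := by linarith
      have htn0 : 0 < t (n + 1) := by linarith
      have h1 := vol_le (Z (n + 1)) A (t (n + 1)) htn T' hT'1
      have h2 := hZ (n + 1) (by omega) T' hT'4
      rw [hE]
      refine h1.trans (ENNReal.ofReal_le_ofReal ?_)
      have hn0 : (0 : ℝ) < ((n + 1 : ℕ) : ℝ) := by positivity
      have hs0 : 0 < √((n + 1 : ℕ) : ℝ) := Real.sqrt_pos.2 hn0
      have h3 : (T' : ℝ) ^ (-(c₁ / √((n + 1 : ℕ) : ℝ))) ≤ 24 / c₂ ^ 4 * (1 / ((n : ℝ) + 1) ^ 2) := by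
        have e1 : β ^ (n + 1) ≤ (T' : ℝ) := (ht (n + 1)).trans hT'2
        calc (T' : ℝ) ^ (-(c₁ / √((n + 1 : ℕ) : ℝ))) ≤ (β ^ (n + 1)) ^ (-(c₁ / √((n + 1 : ℕ) : ℝ))) :=
              Real.rpow_le_rpow_of_nonpos (by positivity) e1 (neg_nonpos.2 (by positivity))
          _ = Real.exp (-(c₂ * √((n + 1 : ℕ) : ℝ))) := by
              rw [← Real.rpow_natCast, ← Real.rpow_mul hβ0.le, Real.rpow_def_of_pos hβ0]
              congr 1
              rw [hc₂]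
              have hss : √((n + 1 : ℕ) : ℝ) * √((n + 1 : ℕ) : ℝ) = ((n + 1 : ℕ) : ℝ) :=
                Real.mul_self_sqrt hn0.le
              field_simp
              rw [sq, hss]
          _ = 1 / Real.exp (c₂ * √((n + 1 : ℕ) : ℝ)) := by rw [Real.exp_neg, one_div]
          _ ≤ 1 / ((c₂ * √((n + 1 : ℕ) : ℝ)) ^ 4 / 24) := by
              apply one_div_le_one_div_of_le (by positivity)
              have := Real.pow_div_factorial_le_exp (x := c₂ * √((n + 1 : ℕ) : ℝ)) (by positivity) 4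
              simpa [Nat.factorial] using this
          _ = 24 / c₂ ^ 4 * (1 / ((n : ℝ) + 1) ^ 2) := by
              have hss : √((n + 1 : ℕ) : ℝ) ^ 4 = ((n : ℝ) + 1) ^ 2 := by
                rw [show (4 : ℕ) = 2 * 2 by norm_num, pow_mul, Real.sq_sqrt hn0.le]
                push_cast
                ring
              rw [mul_pow, hss]
              field_simp
      calc _ ≤ (C₀ * (T' : ℝ) ^ k * (T' : ℝ) ^ (-(c₁ / √((n + 1 : ℕ) : ℝ)))) * (1 / t (n + 1)) ^ k := by gcongr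
        _ ≤ (C₀ * (((A : ℝ) + 3) * t (n + 1)) ^ k * (24 / c₂ ^ 4 * (1 / ((n : ℝ) + 1) ^ 2))) * (1 / t (n + 1)) ^ k := by
            gcongr
        _ = C₀ * ((A : ℝ) + 3) ^ k * (24 / c₂ ^ 4) * (1 / ((n : ℝ) + 1) ^ 2) * (t (n + 1) * (1 / t (n + 1))) ^ k := by
            rw [mul_pow, mul_pow]; ring
        _ = _ := by rw [mul_one_div_cancel htn0.ne', one_pow, mul_one]
    have hsum : Summable (fun n : ℕ => C₀ * ((A : ℝ) + 3) ^ k * (24 / c₂ ^ 4) * (1 / ((n : ℝ) + 1) ^ 2)) := by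
      apply Summable.mul_left
      have := (summable_nat_add_iff 1).2 (Real.summable_one_div_nat_pow.2 (by norm_num : 1 < 2))
      simpa using this
    have hfin : (∑' n, volume (E (n + 1))) ≠ ⊤ :=
      ne_top_of_le_ne_top hsum.tsum_ofReal_ne_top (ENNReal.tsum_le_tsum hb)
    filter_upwards [ae_eventually_notMem hfin] with α hα hαA
    obtain ⟨N, hN⟩ := eventually_atTop.1 hα
    refine eventually_atTop.2 ⟨N + 1, fun n hn hz => ?_⟩
    obtain ⟨m, rfl⟩ : ∃ m, n = m + 1 := ⟨n - 1, by omega⟩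
    apply hN m (by omega)
    rw [hE]
    exact ⟨hαA, hz⟩
  rw [← ae_all_iff] at main
  filter_upwards [main] with α hα
  obtain ⟨A, hA⟩ := exists_nat_ge (∑ i, |α i|)
  refine hα A fun i => le_trans ?_ hA
  exact Finset.single_le_sum (f := fun i => |α i|) (fun i _ => abs_nonneg _) (Finset.mem_univ i)

end Pool.Agent.H27.DT
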